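import Pool.Agent.H23.AF.Targets
import Pool.Agent.H74.AE.HA

/-! Module A2: the bound of Bombieri and Pila for the curve `a x ^ e + b y ^ f = E`. Adapted from
`Pool.Agent.H74.AE.HA`. -/

set_option autoImplicit false

namespace Pool.Agent.H11.AF

open Pool.Agent.H38.AE Pool.Agent.H23.AF Pool.Agent.H74.AE.HA

/-- the exponents -/
theorem expo2 (J f : ℕ) (hJ : 1 ≤ J) (hf : 2 ≤ f) : ∃ u v q2 : ℕ,
    u = f * (J * (J - 1) / 2) ∧ v = J * (f * (f - 1) / 2) ∧ q2 = J * f * (J * f - 1) / 2 ∧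
    f * u ≤ q2 ∧ J * v ≤ q2 ∧ q2 ≠ 0 := by
  obtain ⟨j, rfl⟩ : ∃ j, J = j + 1 := ⟨J - 1, by omega⟩
  obtain ⟨g, rfl⟩ : ∃ g, f = g + 1 := ⟨f - 1, by omega⟩
  obtain ⟨X, hX⟩ := two_dvd j
  obtain ⟨Y, hY⟩ := two_dvd g
  obtain ⟨Q, hQ⟩ := two_dvd (j * g + j + g)
  have e1 : (j + 1) * (j + 1 - 1) / 2 = X := by
    rw [Nat.add_sub_cancel, mul_comm, hX]
    exact Nat.mul_div_cancel_left X (by norm_num)
  have e2 : (g + 1) * (g + 1 - 1) / 2 = Y := by
    rw [Nat.add_sub_cancel, mul_comm, hY]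
    exact Nat.mul_div_cancel_left Y (by norm_num)
  have e3 : (j + 1) * (g + 1) * ((j + 1) * (g + 1) - 1) / 2 = Q := by
    have h1 : (j + 1) * (g + 1) = j * g + j + g + 1 := by ring
    rw [h1, Nat.add_sub_cancel, mul_comm, hQ]
    exact Nat.mul_div_cancel_left Q (by norm_num)
  refine ⟨_, _, _, rfl, rfl, rfl, ?_, ?_, ?_⟩
  · rw [e1, e3]
    have h1 : 2 * ((g + 1) * ((g + 1) * X)) = (g + 1) * (g + 1) * (j * (j + 1)) := by
      rw [hX]; ring
    have h2 : (g + 1) * (g + 1) * (j * (j + 1)) ≤ (j * g + j + g) * (j * g + j + g + 1) := by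
      have h3 : (g + 1) * j ≤ j * g + j + g := by nlinarith
      calc (g + 1) * (g + 1) * (j * (j + 1)) = ((g + 1) * j) * ((g + 1) * (j + 1)) := by ring
        _ ≤ (j * g + j + g) * ((g + 1) * (j + 1)) := Nat.mul_le_mul_right _ h3
        _ = _ := by ring
    omega
  · rw [e2, e3]
    have h1 : 2 * ((j + 1) * ((j + 1) * Y)) = (j + 1) * (j + 1) * (g * (g + 1)) := by
      rw [hY]; ring
    have h2 : (j + 1) * (j + 1) * (g * (g + 1)) ≤ (j * g + j + g) * (j * g + j + g + 1) := by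
      have h3 : (j + 1) * g ≤ j * g + j + g := by nlinarith
      calc (j + 1) * (j + 1) * (g * (g + 1)) = ((j + 1) * g) * ((j + 1) * (g + 1)) := by ring
        _ ≤ (j * g + j + g) * ((j + 1) * (g + 1)) := Nat.mul_le_mul_right _ h3
        _ = _ := by ring
    omega
  · rw [e3]
    intro h
    subst h
    have h1 : 1 ≤ j * g + j + g := by
      have : 1 ≤ g := by omega
      omega
    nlinarith

/-- A2 -/
theorem pf_A2 (hHR : T_R2) (hHB : T_B2) (hHC : T_HC) : T_A2 := by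
  classical
  intro e f ε he hf hε
  obtain ⟨J, hJdef⟩ : ∃ J : ℕ, J = ⌈2 / ε⌉₊ + 1 := ⟨_, rfl⟩
  have hJ : 1 ≤ J := by omega
  have hJ0 : (0 : ℝ) < J := by exact_mod_cast hJ
  have hf0 : (0 : ℝ) < f := by
    have : 0 < f := by omega
    exact_mod_cast this
  obtain ⟨κ, hκ⟩ : ∃ κ : ℝ, κ = 1 / (J : ℝ) := ⟨_, rfl⟩
  have hκ0 : 0 < κ := by rw [hκ]; positivity
  have hκε : κ ≤ ε / 2 := by
    rw [hκ, div_le_iff₀ hJ0]
    have h1 : 2 / ε ≤ (J : ℝ) := by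
      rw [hJdef]
      push_cast
      linarith [Nat.le_ceil (2 / ε)]
    rw [div_le_iff₀ hε] at h1
    linarith
  obtain ⟨u, v, q2, hu, hv, hq2, hfu, hJv, hq20⟩ := expo2 J f hJ hf
  obtain ⟨s, hs⟩ : ∃ s : ℕ, s = J * f := ⟨_, rfl⟩
  have hvq : (v : ℝ) ≤ κ * q2 := by
    rw [hκ, one_div, inv_mul_eq_div, le_div_iff₀ hJ0]
    have : (J : ℝ) * v ≤ q2 := by exact_mod_cast hJv
    linarith
  have huq : (u : ℝ) ≤ 1 / (f : ℝ) * q2 := by
    rw [one_div, inv_mul_eq_div, le_div_iff₀ hf0]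
    have : (f : ℝ) * u ≤ q2 := by exact_mod_cast hfu
    linarith
  obtain ⟨B, hB⟩ := hHB J e f (by omega) (by omega)
  obtain ⟨C', hC'1, hC'⟩ := hHC (e * f + 3) (ε / 2) (by linarith)
  have hC'0 : 0 < C' := by linarith
  have hsf : (0 : ℝ) < s.factorial := by exact_mod_cast Nat.factorial_pos s
  refine ⟨f * B * C' * (3 + 2 * s.factorial) + 1, by positivity, ?_⟩
  intro N a b E hN ha hb hE haN hbN hEN U V hU hV hUN hVN
  have hN1 : (1 : ℝ) ≤ N := by exact_mod_cast hN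
  have hU1 : (1 : ℝ) ≤ U := by exact_mod_cast hU
  have hV1 : (1 : ℝ) ≤ V := by exact_mod_cast hV
  have hNε : (1 : ℝ) ≤ (N : ℝ) ^ ε := Real.one_le_rpow hN1 hε.le
  have hUVκ : (1 : ℝ) ≤ (U : ℝ) ^ ((1 : ℝ) / f) := Real.one_le_rpow hU1 (by positivity)
  obtain ⟨P, hP⟩ : ∃ P : Finset (ℕ × ℕ), P = (Finset.Icc 1 U ×ˢ Finset.Icc 1 V).filter
    (fun t => a * (t.1 : ℤ) ^ e + b * (t.2 : ℤ) ^ f = E) := ⟨_, rfl⟩
  rw [← hP]
  have hprod : (1 : ℝ) ≤ (N : ℝ) ^ ε * (U : ℝ) ^ ((1 : ℝ) / f) := by nlinarith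
  rcases Nat.lt_or_ge N 2 with hN2 | hN2
  · -- one point
    have hU' : U = 1 := by omega
    have hV' : V = 1 := by omega
    have hc : P.card ≤ 1 := by
      rw [hP]
      refine (Finset.card_filter_le _ _).trans ?_
      rw [hU', hV']
      simp
    have hc' : (P.card : ℝ) ≤ 1 := by exact_mod_cast hc
    have h1 : (1 : ℝ) ≤ f * B * C' * (3 + 2 * s.factorial) + 1 := by
      have : (0 : ℝ) ≤ f * B * C' * (3 + 2 * s.factorial) := by positivity
      linarith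
    rw [mul_assoc]
    nlinarith
  · -- the prime
    obtain ⟨T, hT⟩ : ∃ T : ℕ, T = a.natAbs * b.natAbs * E.natAbs * (e * f) := ⟨_, rfl⟩
    have ha' : 1 ≤ a.natAbs := Int.natAbs_pos.2 ha
    have hb' : 1 ≤ b.natAbs := Int.natAbs_pos.2 hb
    have hE' : 1 ≤ E.natAbs := Int.natAbs_pos.2 hE
    have haN' : a.natAbs ≤ N := by rw [Int.abs_eq_natAbs] at haN; exact_mod_cast haN
    have hbN' : b.natAbs ≤ N := by rw [Int.abs_eq_natAbs] at hbN; exact_mod_cast hbN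
    have hEN' : E.natAbs ≤ N := by rw [Int.abs_eq_natAbs] at hEN; exact_mod_cast hEN
    have hef : 1 ≤ e * f := Nat.mul_pos (by omega) (by omega)
    have hT1 : 1 ≤ T := by
      rw [hT]
      exact Nat.mul_pos (Nat.mul_pos (Nat.mul_pos ha' hb') hE') hef
    have hTN : T ≤ N ^ (e * f + 3) := by
      rw [hT, pow_add, mul_comm]
      refine Nat.mul_le_mul ?_ ?_
      · calc e * f ≤ 2 ^ (e * f) := Nat.lt_two_pow_self.le
          _ ≤ N ^ (e * f) := Nat.pow_le_pow_left hN2 _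
      · calc a.natAbs * b.natAbs * E.natAbs ≤ N * N * N :=
            Nat.mul_le_mul (Nat.mul_le_mul haN' hbN') hEN'
          _ = N ^ 3 := by ring
    obtain ⟨L, hL⟩ : ∃ L : ℝ, L = max 2 (max ((N : ℝ) ^ (ε / 2))
      (2 * s.factorial * ((N : ℝ) ^ κ * (U : ℝ) ^ ((1 : ℝ) / f)))) := ⟨_, rfl⟩
    have hL2 : 2 ≤ L := by rw [hL]; exact le_max_left _ _
    have hLN : (N : ℝ) ^ (ε / 2) ≤ L := by
      rw [hL]; exact (le_max_left _ _).trans (le_max_right _ _)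
    have hLU : 2 * s.factorial * ((N : ℝ) ^ κ * (U : ℝ) ^ ((1 : ℝ) / f)) ≤ L := by
      rw [hL]; exact (le_max_right _ _).trans (le_max_right _ _)
    obtain ⟨ℓ, hℓp, hℓT, hLℓ, hℓC⟩ := hC' N T L hN hT1 hTN hL2 hLN
    have : Fact ℓ.Prime := ⟨hℓp⟩
    have hℓ : ∀ n : ℕ, n ∣ T → ¬ ℓ ∣ n := fun n hn h => hℓT (h.trans hn)
    have hℓa : ¬ (ℓ : ℤ) ∣ a := by
      rw [← Int.dvd_natAbs, Int.natCast_dvd_natCast]
      refine hℓ _ ?_
      rw [hT]
      exact ((dvd_mul_right _ _).mul_right _).mul_right _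
    have hℓb : ¬ (ℓ : ℤ) ∣ b := by
      rw [← Int.dvd_natAbs, Int.natCast_dvd_natCast]
      refine hℓ _ ?_
      rw [hT]
      exact ((dvd_mul_left _ _).mul_right _).mul_right _
    have hℓE : ¬ (ℓ : ℤ) ∣ E := by
      rw [← Int.dvd_natAbs, Int.natCast_dvd_natCast]
      refine hℓ _ ?_
      rw [hT]
      exact (dvd_mul_left _ _).mul_right _
    have hℓe : ¬ ℓ ∣ e := hℓ _ (by rw [hT]; exact (dvd_mul_right _ _).mul_left _)
    have hℓf : ¬ ℓ ∣ f := hℓ _ (by rw [hT]; exact (dvd_mul_left _ _).mul_left _)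
    -- the inequality
    have hineq : Nat.factorial (J * f) * (U ^ (f * (J * (J - 1) / 2)) *
        V ^ (J * (f * (f - 1) / 2))) < ℓ ^ (J * f * (J * f - 1) / 2) := by
      rw [← hu, ← hv, ← hq2, ← hs]
      have h1 : 2 * s.factorial * ((N : ℝ) ^ κ * (U : ℝ) ^ ((1 : ℝ) / f)) < ℓ :=
        lt_of_le_of_lt hLU hLℓ
      have h2 : (2 * s.factorial * ((N : ℝ) ^ κ * (U : ℝ) ^ ((1 : ℝ) / f))) ^ q2 < (ℓ : ℝ) ^ q2 :=
        pow_lt_pow_left₀ h1 (by positivity) hq20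
      have h3 : (V : ℝ) ^ v ≤ ((N : ℝ) ^ κ) ^ q2 := by
        rw [← Real.rpow_natCast ((N : ℝ) ^ κ), ← Real.rpow_mul (by positivity)]
        calc (V : ℝ) ^ v ≤ (N : ℝ) ^ v := by gcongr
          _ = (N : ℝ) ^ (v : ℝ) := (Real.rpow_natCast _ _).symm
          _ ≤ (N : ℝ) ^ (κ * q2) := Real.rpow_le_rpow_of_exponent_le hN1 hvq
      have h3' : (U : ℝ) ^ u ≤ ((U : ℝ) ^ ((1 : ℝ) / f)) ^ q2 := by
        rw [← Real.rpow_natCast ((U : ℝ) ^ ((1 : ℝ) / f)), ← Real.rpow_mul (by positivity)]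
        calc (U : ℝ) ^ u = (U : ℝ) ^ (u : ℝ) := (Real.rpow_natCast _ _).symm
          _ ≤ (U : ℝ) ^ ((1 : ℝ) / f * q2) := Real.rpow_le_rpow_of_exponent_le hU1 huq
      have h4 : (s.factorial : ℝ) ≤ (2 * s.factorial) ^ q2 := by
        have h5 : (1 : ℝ) ≤ 2 * s.factorial := by
          have : (1 : ℝ) ≤ s.factorial := by exact_mod_cast Nat.factorial_pos s
          linarith
        calc (s.factorial : ℝ) ≤ 2 * s.factorial := by linarith
          _ ≤ (2 * s.factorial) ^ q2 := le_self_pow₀ h5 hq20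
      rw [mul_pow (2 * (s.factorial : ℝ)) ((N : ℝ) ^ κ * (U : ℝ) ^ ((1 : ℝ) / f)) q2,
        mul_pow ((N : ℝ) ^ κ)] at h2
      have h6 : (s.factorial : ℝ) * ((U : ℝ) ^ u * (V : ℝ) ^ v) < (ℓ : ℝ) ^ q2 := by
        refine lt_of_le_of_lt ?_ h2
        have h7 : (U : ℝ) ^ u * (V : ℝ) ^ v ≤
            ((N : ℝ) ^ κ) ^ q2 * ((U : ℝ) ^ ((1 : ℝ) / f)) ^ q2 := by
          rw [mul_comm]
          exact mul_le_mul h3 h3' (by positivity) (by positivity)
        exact mul_le_mul h4 h7 (by positivity) (by positivity)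
      exact_mod_cast h6
    -- the classes
    let π : ℕ × ℕ → ZMod ℓ × ZMod ℓ := fun t => ((t.1 : ZMod ℓ), (t.2 : ZMod ℓ))
    have hPm : ∀ t ∈ P, (1 ≤ t.1 ∧ t.1 ≤ U) ∧ (1 ≤ t.2 ∧ t.2 ≤ V) ∧
        a * (t.1 : ℤ) ^ e + b * (t.2 : ℤ) ^ f = E := by
      intro t ht
      rw [hP, Finset.mem_filter, Finset.mem_product, Finset.mem_Icc, Finset.mem_Icc] at ht
      exact ⟨ht.1.1, ht.1.2, ht.2⟩
    have himg : (P.image π).card ≤ ℓ * f := by
      refine classes a b E e f (by omega) hℓb _ fun w hw => ?_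
      obtain ⟨t, ht, rfl⟩ := Finset.mem_image.1 hw
      have := congrArg (Int.cast : ℤ → ZMod ℓ) (hPm t ht).2.2
      push_cast at this
      exact this
    have hfib : ∀ w ∈ P.image π, (P.filter (fun t => π t = w)).card ≤ B := by
      intro w _
      let g : ℕ × ℕ ↪ ℤ × ℤ := ⟨fun t => ((t.1 : ℤ), (t.2 : ℤ)), fun t t' h => by
        simp only [Prod.mk.injEq, Nat.cast_inj] at h
        exact Prod.ext h.1 h.2⟩
      have hQ : ∀ t ∈ (P.filter (fun t => π t = w)).map g, 1 ≤ t.1 ∧ t.1 ≤ U ∧ 1 ≤ t.2 ∧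
          t.2 ≤ V ∧ a * t.1 ^ e + b * t.2 ^ f = E := by
        intro t ht
        obtain ⟨t', ht', rfl⟩ := Finset.mem_map.1 ht
        obtain ⟨h1, h2, h3⟩ := hPm t' (Finset.mem_filter.1 ht').1
        refine ⟨?_, ?_, ?_, ?_, h3⟩
        · show (1 : ℤ) ≤ (t'.1 : ℤ)
          exact_mod_cast h1.1
        · show (t'.1 : ℤ) ≤ (U : ℤ)
          exact_mod_cast h1.2
        · show (1 : ℤ) ≤ (t'.2 : ℤ)
          exact_mod_cast h2.1
        · show (t'.2 : ℤ) ≤ (V : ℤ)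
          exact_mod_cast h2.2
      have hcong : ∀ t ∈ (P.filter (fun t => π t = w)).map g,
          ∀ t' ∈ (P.filter (fun t => π t = w)).map g,
          (ℓ : ℤ) ∣ t.1 - t'.1 ∧ (ℓ : ℤ) ∣ t.2 - t'.2 := by
        intro t ht t' ht'
        obtain ⟨u, hu, rfl⟩ := Finset.mem_map.1 ht
        obtain ⟨u', hu', rfl⟩ := Finset.mem_map.1 ht'
        have h1 : π u = π u' := (Finset.mem_filter.1 hu).2.trans (Finset.mem_filter.1 hu').2.symm
        simp only [π, Prod.mk.injEq] at h1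
        refine ⟨?_, ?_⟩
        · rw [← ZMod.intCast_zmod_eq_zero_iff_dvd]
          show (((u.1 : ℤ) - (u'.1 : ℤ) : ℤ) : ZMod ℓ) = 0
          push_cast
          rw [h1.1, sub_self]
        · rw [← ZMod.intCast_zmod_eq_zero_iff_dvd]
          show (((u.2 : ℤ) - (u'.2 : ℤ) : ℤ) : ZMod ℓ) = 0
          push_cast
          rw [h1.2, sub_self]
      obtain ⟨h, hne, hzero⟩ := hHR J ℓ a b E e f U V hJ hℓp he hf hℓa hℓb hℓE hℓe
        hℓf hineq _ hQ hcong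
      have := hB a b E ha hb hE h hne ((P.filter (fun t => π t = w)).map g) (fun t ht => by
        obtain ⟨h1, -, h3, -, h5⟩ := hQ t ht
        exact ⟨h1, h3, h5, hzero t ht⟩)
      rwa [Finset.card_map] at this
    have hcard : P.card ≤ B * (ℓ * f) :=
      (Finset.card_le_mul_card_image P B hfib).trans (Nat.mul_le_mul_left _ himg)
    have hcard' : (P.card : ℝ) ≤ B * (ℓ * f) := by exact_mod_cast hcard
    have hLle : L ≤ (3 + 2 * s.factorial) * ((N : ℝ) ^ ε * (U : ℝ) ^ ((1 : ℝ) / f)) := by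
      rw [hL]
      have hx : (N : ℝ) ^ (ε / 2) ≤ (N : ℝ) ^ ε * (U : ℝ) ^ ((1 : ℝ) / f) := by
        have h1 : (N : ℝ) ^ (ε / 2) ≤ (N : ℝ) ^ ε :=
          Real.rpow_le_rpow_of_exponent_le hN1 (by linarith)
        nlinarith
      have hy : (N : ℝ) ^ κ * (U : ℝ) ^ ((1 : ℝ) / f) ≤ (N : ℝ) ^ ε * (U : ℝ) ^ ((1 : ℝ) / f) := by
        have h1 : (N : ℝ) ^ κ ≤ (N : ℝ) ^ ε :=
          Real.rpow_le_rpow_of_exponent_le hN1 (by linarith)
        exact mul_le_mul_of_nonneg_right h1 (by positivity)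
      have hz : 2 * (s.factorial : ℝ) * ((N : ℝ) ^ κ * (U : ℝ) ^ ((1 : ℝ) / f)) ≤
          2 * s.factorial * ((N : ℝ) ^ ε * (U : ℝ) ^ ((1 : ℝ) / f)) :=
        mul_le_mul_of_nonneg_left hy (by positivity)
      have hw : 0 ≤ 2 * (s.factorial : ℝ) * ((N : ℝ) ^ ε * (U : ℝ) ^ ((1 : ℝ) / f)) := by
        positivity
      refine max_le ?_ (max_le ?_ ?_)
      · linarith
      · linarith
      · linarith
    calc (P.card : ℝ) ≤ B * (ℓ * f) := hcard'
      _ ≤ B * ((C' * L) * f) := by gcongr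
      _ ≤ B * ((C' * ((3 + 2 * s.factorial) * ((N : ℝ) ^ ε * (U : ℝ) ^ ((1 : ℝ) / f)))) * f) := by
          gcongr
      _ = (f * B * C' * (3 + 2 * s.factorial)) * ((N : ℝ) ^ ε * (U : ℝ) ^ ((1 : ℝ) / f)) := by ring
      _ ≤ (f * B * C' * (3 + 2 * s.factorial) + 1) *
          ((N : ℝ) ^ ε * (U : ℝ) ^ ((1 : ℝ) / f)) := by
          refine mul_le_mul_of_nonneg_right (by linarith) (by positivity)
      _ = _ := by ring

end Pool.Agent.H11.AF
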