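import Pool.Agent.H23.AF.Targets
import Pool.Agent.H58.AE.HR

/-! Module R2: points of a class lie on a curve of degree less than `f` in `y`. Adapted from
`Pool.Agent.H58.AE.HR`. -/

set_option autoImplicit false

namespace Pool.Agent.H11.AF

open Pool.Agent.H38.AE Pool.Agent.H23.AF Pool.Agent.H58.AE

lemma card_mon2 (J f : ℕ) : (mon2 J f).card = J * f := by
  unfold mon2
  rw [Finset.card_product, Finset.card_range, Finset.card_range]

lemma sum_mon2_fst (J f : ℕ) : ∑ t ∈ mon2 J f, t.1 = f * (J * (J - 1) / 2) := by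
  unfold mon2
  rw [Finset.sum_product, ← Finset.sum_range_id, Finset.mul_sum]
  refine Finset.sum_congr rfl fun k _ => ?_
  rw [Finset.sum_const, Finset.card_range, smul_eq_mul]

lemma sum_mon2_snd (J f : ℕ) : ∑ t ∈ mon2 J f, t.2 = J * (f * (f - 1) / 2) := by
  unfold mon2
  rw [Finset.sum_product, ← Finset.sum_range_id]
  simp only
  rw [Finset.sum_const, Finset.card_range, smul_eq_mul]

theorem pf_R2 (hHP : T_HP) : T_R2 := by
  intro J ℓ a b E e f U V _ hℓ he hf hla hlb hlE hle hlf hbig P hP hcong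
  classical
  set s : ℕ := (mon2 J f).card with hs
  have hs' : J * f = s := (card_mon2 J f).symm
  have hf1 : ∑ t ∈ mon2 J f, t.1 = f * (J * (J - 1) / 2) := sum_mon2_fst J f
  have hf2 : ∑ t ∈ mon2 J f, t.2 = J * (f * (f - 1) / 2) := sum_mon2_snd J f
  rw [hs'] at hbig
  -- the rows
  let row : ℤ × ℤ → (↥(mon2 J f) → ℚ) := fun t m => (t.1 : ℚ) ^ m.1.1 * (t.2 : ℚ) ^ m.1.2
  let W : Submodule ℚ (↥(mon2 J f) → ℚ) := Submodule.span ℚ (row '' (P : Set (ℤ × ℤ)))
  have hfin : Module.finrank ℚ (↥(mon2 J f) → ℚ) = s := by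
    rw [Module.finrank_fintype_fun_eq_card, Fintype.card_coe]
  by_cases hW : W = ⊤
  · exfalso
    have hdim : Module.finrank ℚ (Submodule.span ℚ (row '' (P : Set (ℤ × ℤ)))) = s := by
      change Module.finrank ℚ W = s
      rw [hW, finrank_top, hfin]
    obtain ⟨g, hg1, -, hg3⟩ := Submodule.exists_fun_fin_finrank_span_eq ℚ
      (row '' (P : Set (ℤ × ℤ)))
    have hg1' : ∀ i, ∃ t, t ∈ P ∧ row t = g i := fun i => by
      obtain ⟨t, ht, h⟩ := hg1 i
      exact ⟨t, ht, h⟩
    choose tt htt htg using hg1'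
    let ι := finCongr hdim.symm
    let pt : Fin s → ℤ × ℤ := fun i => tt (ι i)
    have hpt : ∀ i, pt i ∈ P := fun i => htt _
    let eq : Fin s ≃ ↥(mon2 J f) := (Fintype.equivFinOfCardEq (Fintype.card_coe (mon2 J f))).symm
    let B : Matrix (Fin s) (Fin s) ℤ := fun i j =>
      (pt i).1 ^ (eq j).1.1 * (pt i).2 ^ (eq j).1.2
    have hdetne : B.det ≠ 0 := by
      intro hdet
      have hli : LinearIndependent ℚ (fun i : Fin s => row (pt i)) := by
        have h1 : (fun i : Fin s => row (pt i)) = g ∘ ι := by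
          funext i
          exact htg _
        rw [h1]
        exact hg3.comp ι ι.injective
      let BQ : Matrix (Fin s) (Fin s) ℚ := fun i j => row (pt i) (eq j)
      have hli2 : LinearIndependent ℚ BQ.row := by
        have h2 : BQ.row = fun i => (LinearMap.funLeft ℚ ℚ eq) (row (pt i)) := by
          funext i j
          rfl
        rw [h2]
        have h3 : LinearMap.ker (LinearMap.funLeft ℚ ℚ eq) = ⊥ := by
          rw [LinearMap.ker_eq_bot]
          exact LinearMap.funLeft_injective_of_surjective ℚ ℚ eq eq.surjective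
        exact hli.map' _ h3
      rw [Matrix.linearIndependent_rows_iff_isUnit, Matrix.isUnit_iff_isUnit_det] at hli2
      have h4 : BQ = B.map (Int.castRingHom ℚ) := by
        ext i j
        change ((pt i).1 : ℚ) ^ (eq j).1.1 * ((pt i).2 : ℚ) ^ (eq j).1.2 =
          (((pt i).1 ^ (eq j).1.1 * (pt i).2 ^ (eq j).1.2 : ℤ) : ℚ)
        push_cast
        rfl
      rw [h4, ← RingHom.mapMatrix_apply, ← RingHom.map_det, hdet, map_zero] at hli2
      exact not_isUnit_zero hli2
    have hdvd : (ℓ : ℤ) ^ (s * (s - 1) / 2) ∣ B.det :=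
      hHP ℓ a b E e f s hℓ he hf hla hlb hlE hle hlf (fun i => (pt i).1) (fun i => (pt i).2)
        (fun j => (eq j).1.1) (fun j => (eq j).1.2) (fun i => (hP _ (hpt i)).2.2.2.2)
        (fun i j => (hcong _ (hpt i) _ (hpt j)).1) (fun i j => (hcong _ (hpt i) _ (hpt j)).2)
    have hle1 : (ℓ : ℤ) ^ (s * (s - 1) / 2) ≤ |B.det| := by
      refine Int.le_of_dvd (abs_pos.2 hdetne) ?_
      rwa [dvd_abs]
    have hle2 : |B.det| ≤ (s.factorial : ℤ) *
        ((U : ℤ) ^ (∑ j, (eq j).1.1) * (V : ℤ) ^ (∑ j, (eq j).1.2)) :=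
      det_mon_le (fun i => (pt i).1) (fun i => (pt i).2) (fun j => (eq j).1.1)
        (fun j => (eq j).1.2) (fun i => ⟨(hP _ (hpt i)).1, (hP _ (hpt i)).2.1⟩)
        (fun i => ⟨(hP _ (hpt i)).2.2.1, (hP _ (hpt i)).2.2.2.1⟩)
    have he1 : ∑ j, (eq j).1.1 = f * (J * (J - 1) / 2) := by
      rw [← hf1, eq.sum_comp (fun m : ↥(mon2 J f) => m.1.1)]
      exact Finset.sum_coe_sort (mon2 J f) (fun t => t.1)
    have he2 : ∑ j, (eq j).1.2 = J * (f * (f - 1) / 2) := by
      rw [← hf2, eq.sum_comp (fun m : ↥(mon2 J f) => m.1.2)]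
      exact Finset.sum_coe_sort (mon2 J f) (fun t => t.2)
    rw [he1, he2] at hle2
    have hbig' : (s.factorial : ℤ) * ((U : ℤ) ^ (f * (J * (J - 1) / 2)) *
        (V : ℤ) ^ (J * (f * (f - 1) / 2))) < (ℓ : ℤ) ^ (s * (s - 1) / 2) := by
      exact_mod_cast hbig
    linarith
  · obtain ⟨φ, hφ0, hφ⟩ := Submodule.exists_le_ker_of_lt_top W (lt_top_iff_ne_top.2 hW)
    let sg : ↥(mon2 J f) → (↥(mon2 J f) → ℚ) := fun i j => if i = j then 1 else 0
    refine ⟨fun m => if hm : m ∈ mon2 J f then φ (sg ⟨m, hm⟩) else 0, ?_, ?_⟩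
    · by_contra hcon
      push Not at hcon
      apply hφ0
      refine LinearMap.ext fun v => ?_
      rw [LinearMap.pi_apply_eq_sum_univ, LinearMap.zero_apply]
      refine Finset.sum_eq_zero fun m _ => ?_
      have h1 := hcon m.1 m.2
      rw [dif_pos m.2] at h1
      have h2 : φ (fun j => if m = j then 1 else 0) = 0 := h1
      rw [h2, smul_zero]
    · intro t ht
      have h1 : row t ∈ W := Submodule.subset_span ⟨t, ht, rfl⟩
      have h2 := hφ h1
      rw [LinearMap.mem_ker, LinearMap.pi_apply_eq_sum_univ] at h2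
      rw [← Finset.sum_coe_sort (mon2 J f)]
      refine Eq.trans ?_ h2
      refine Finset.sum_congr rfl fun m _ => ?_
      simp only [dif_pos m.2, smul_eq_mul]
      change φ (sg m) * (t.1 : ℚ) ^ m.1.1 * (t.2 : ℚ) ^ m.1.2 =
        ((t.1 : ℚ) ^ m.1.1 * (t.2 : ℚ) ^ m.1.2) * φ (sg m)
      ring

end Pool.Agent.H11.AF
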